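import Pool.Agent.H9R3.BZ.L

/-!
# The moment bound for the Barnes multiple zeta-function fails

For weights `w = (1, b)`, where `b > 0` is irrational but very well approximable by rationals
(for instance a Liouville number), and `a = (1 + b) / 2`, the Barnes double zeta-function behaves on
long ranges of `t` as if the two weights were commensurable, and its moments on the lines
`1 = r - d / 2 ≤ σ < 3 / 2` are too large.

Proof idea: `Γ(s) ζ_2(s)` is in the strip `0 < Re s < 2` the Mellin transform of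
`1 / (4 sinh(x/2) sinh(b x/2)) - 1 / (b x^2)`. A moment bound and Stirling's formula bound this kernel
near the imaginary axis by Mellin inversion, but if `|b q - p|` is tiny then the simple poles
`2 π i q` and `2 π i p / b` nearly form a double pole, and the kernel is too large between them.
-/

set_option autoImplicit false

open Filter Topology Asymptotics

namespace Pool.Agent.Results.MP_047497_nt.LiouvilleWeights

/-- The Dirichlet series `∑ (a + m₁ w₁ + ⋯ + m_r w_r)^{-s}` over `m ∈ ℕ^r` (with `0 ∈ ℕ`). -/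
noncomputable def barnesSeries (r : ℕ) (a : ℝ) (w : Fin r → ℝ) (s : ℂ) : ℂ :=
  ∑' m : Fin r → ℕ, ((a + ∑ i, (m i : ℝ) * w i : ℝ) : ℂ) ^ (-s)

/-- `Z` is the Barnes multiple zeta-function `ζ_r(·; a, w)`: it is holomorphic on the complex plane
except for possible simple poles at `1, …, r`, and for `Re s > r` it is given by the (summable)
Dirichlet series. -/
structure IsBarnesZeta (r : ℕ) (a : ℝ) (w : Fin r → ℝ) (Z : ℂ → ℂ) : Prop where
  holomorphic : ∀ s : ℂ, (∀ j : ℕ, 1 ≤ j → j ≤ r → s ≠ j) → DifferentiableAt ℂ Z s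
  simple_pole : ∀ j : ℕ, 1 ≤ j → j ≤ r →
    ∃ c : ℂ, Tendsto (fun s : ℂ => (s - j) * Z s) (𝓝[≠] (j : ℂ)) (𝓝 c)
  summable : ∀ s : ℂ, (r : ℝ) < s.re →
    Summable fun m : Fin r → ℕ => ((a + ∑ i, (m i : ℝ) * w i : ℝ) : ℂ) ^ (-s)
  series : ∀ s : ℂ, (r : ℝ) < s.re → Z s = barnesSeries r a w s

/-- The dimension `d` of the `ℚ`-vector space spanned by the weights. -/
noncomputable def weightDim (r : ℕ) (w : Fin r → ℝ) : ℕ :=
  Module.finrank ℚ (Submodule.span ℚ (Set.range w))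

/-- The moment `∫_1^T |Z(σ + i t)|^{2k} dt`. -/
noncomputable def moment (Z : ℂ → ℂ) (k : ℕ) (σ T : ℝ) : ℝ :=
  ∫ t in (1 : ℝ)..T, ‖Z (σ + t * Complex.I)‖ ^ (2 * k)

theorem isBarnesZeta {b : ℝ} (hb : 0 < b) :
    IsBarnesZeta 2 ((1 + b) / 2) ![1, b] (Pool.Agent.H9R3.BZ.Zb b) where
  holomorphic := fun s hs => by
    refine Pool.Agent.H9R3.BZ.Zb_diffAt hb ?_ ?_
    · simpa using hs 1 le_rfl (by norm_num)
    · simpa using hs 2 (by norm_num) le_rfl
  simple_pole := fun j h1 h2 => Pool.Agent.H9R3.BZ.Zb_pole hb j h1 h2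
  summable := fun s hs => (Pool.Agent.H9R3.BZ.Zb_series hb (by simpa using hs)).summable
  series := fun s hs => (Pool.Agent.H9R3.BZ.Zb_series hb (by simpa using hs)).tsum_eq.symm

/-- **Q1 is false**, and it fails for every weight vector `(1, b)` with `b > 0` of irrationality
exponent larger than `4`, in particular on the whole range `1 ≤ σ < 3 / 2` for Liouville numbers. -/
theorem result :
    (¬ ∀ (r : ℕ) (a : ℝ) (w : Fin r → ℝ), 1 ≤ r → 0 < a → (∀ i, 0 < w i) →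
        ∀ Z : ℂ → ℂ, IsBarnesZeta r a w Z →
          ∀ k : ℕ, 1 ≤ k → ∀ ε : ℝ, 0 < ε → ∀ σ : ℝ, (r : ℝ) - (weightDim r w : ℝ) / 2 ≤ σ →
            (fun T : ℝ => moment Z k σ T) =O[atTop] fun T : ℝ => T ^ (1 + ε)) ∧
    ∀ b μ : ℝ, 0 < b → 4 < μ → LiouvilleWith μ b →
      weightDim 2 ![1, b] = 2 ∧
      ∃ Z : ℂ → ℂ, IsBarnesZeta 2 ((1 + b) / 2) ![1, b] Z ∧
        ∀ k : ℕ, 1 ≤ k → ∀ σ ε : ℝ, 1 ≤ σ → 0 < ε → σ + ε < 3 / 2 - 2 / μ →
          ¬ (fun T : ℝ => moment Z k σ T) =O[atTop] fun T : ℝ => T ^ (1 + ε) := by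
  have main : ∀ b μ : ℝ, 0 < b → 4 < μ → LiouvilleWith μ b →
      weightDim 2 ![1, b] = 2 ∧
      ∃ Z : ℂ → ℂ, IsBarnesZeta 2 ((1 + b) / 2) ![1, b] Z ∧
        ∀ k : ℕ, 1 ≤ k → ∀ σ ε : ℝ, 1 ≤ σ → 0 < ε → σ + ε < 3 / 2 - 2 / μ →
          ¬ (fun T : ℝ => moment Z k σ T) =O[atTop] fun T : ℝ => T ^ (1 + ε) := by
    intro b μ hb hμ hL
    refine ⟨Pool.Agent.H9R3.BZ.finrank_two (hL.irrational (by linarith)),
      Pool.Agent.H9R3.BZ.Zb b, isBarnesZeta hb, ?_⟩
    intro k hk σ ε hσ hε hσε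
    refine Pool.Agent.H9R3.BZ.not_isBigO hb hL (by linarith) (by linarith) hk hε.le ?_
    have hμ0 : 0 < μ := by linarith
    have h1 : μ * (σ + ε) < μ * (3 / 2 - 2 / μ) := by gcongr
    have h2 : μ * (3 / 2 - 2 / μ) = 3 / 2 * μ - 2 := by field_simp
    rw [h2] at h1
    linarith
  refine ⟨fun hQ => ?_, main⟩
  have hL : Liouville (liouvilleNumber ((2 : ℕ) : ℝ)) := liouville_liouvilleNumber le_rfl
  set b : ℝ := liouvilleNumber ((2 : ℕ) : ℝ) with hb
  have hb0 : 0 < b := by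
    rw [hb]
    unfold liouvilleNumber
    have h1 := LiouvilleNumber.summable (m := ((2 : ℕ) : ℝ)) (by norm_num)
    refine h1.tsum_pos (fun i => by positivity) 0 (by positivity)
  obtain ⟨hd, Z, hZ, hmain⟩ := main b 8 hb0 (by norm_num) (hL.liouvilleWith 8)
  refine hmain 1 le_rfl 1 (1 / 8) le_rfl (by norm_num) (by norm_num) ?_
  refine hQ 2 ((1 + b) / 2) ![1, b] (by norm_num) (by positivity) ?_ Z hZ 1 le_rfl (1 / 8)
    (by norm_num) 1 ?_
  · intro i
    fin_cases i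
    · simp
    · simpa using hb0
  · rw [hd]
    norm_num

end Pool.Agent.Results.MP_047497_nt.LiouvilleWeights
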